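import Pool.Agent.Run7.h787.ST.Iface3
import Pool.Agent.R426.QC.Ep
import Pool.Agent.H484R2.Zeta

/-!
# Euler products and Dirichlet series over the ideals of a number field (piece DIR of project ST)
-/

set_option autoImplicit false

open NumberField IsDedekindDomain

noncomputable section

namespace Pool.Agent.Run7.h341.ST

open Pool.Agent.Run7.h787.ST

variable {K : Type} [Field K] [NumberField K]

/-- `a` is nonzero and prime to `S` -/
def PrimeTo (S : Finset (HeightOneSpectrum (𝓞 K))) (a : Ideal (𝓞 K)) : Prop :=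
  a ≠ ⊥ ∧ ∀ p ∈ S, ¬ a ≤ p.asIdeal

open Classical in
/-- the terms of the Dirichlet series -/
def fS (S : Finset (HeightOneSpectrum (𝓞 K))) (F : Ideal (𝓞 K) → ℂ) (s : ℂ) (a : Ideal (𝓞 K)) : ℂ :=
  if PrimeTo S a then F a * (Ideal.absNorm a : ℂ) ^ (-s) else 0

lemma primeTo_top (S : Finset (HeightOneSpectrum (𝓞 K))) : PrimeTo S (⊤ : Ideal (𝓞 K)) :=
  ⟨top_ne_bot, fun p _ h => p.isPrime.ne_top (top_le_iff.1 h)⟩

lemma primeTo_mul (S : Finset (HeightOneSpectrum (𝓞 K))) (a b : Ideal (𝓞 K)) :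
    PrimeTo S (a * b) ↔ PrimeTo S a ∧ PrimeTo S b := by
  constructor
  · rintro ⟨h0, h1⟩
    refine ⟨⟨fun h => h0 (by rw [h, Ideal.bot_mul]), fun p hp h => h1 p hp ?_⟩,
      ⟨fun h => h0 (by rw [h, Ideal.mul_bot]), fun p hp h => h1 p hp ?_⟩⟩
    · exact Ideal.mul_le_left.trans h
    · exact Ideal.mul_le_right.trans h
  · rintro ⟨⟨ha, ha'⟩, ⟨hb, hb'⟩⟩
    refine ⟨fun h => ?_, fun p hp h => ?_⟩
    · rcases Ideal.mul_eq_bot.mp h with h | h
      · exact ha h
      · exact hb h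
    · rcases p.isPrime.mul_le.1 h with h | h
      · exact ha' p hp h
      · exact hb' p hp h

lemma primeTo_prime (S : Finset (HeightOneSpectrum (𝓞 K))) (p : HeightOneSpectrum (𝓞 K)) :
    PrimeTo S p.asIdeal ↔ p ∉ S := by
  constructor
  · rintro ⟨_, h⟩ hp
    exact h p hp le_rfl
  · intro hp
    refine ⟨p.ne_bot, fun q hq h => hp ?_⟩
    have h1 : p.asIdeal = q.asIdeal := p.isMaximal.eq_of_le q.isPrime.ne_top h
    have h2 : p = q := HeightOneSpectrum.ext h1
    rw [h2]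
    exact hq

/-- convergence of the series of the norms of all nonzero ideals -/
lemma summable_norm {s : ℂ} (hs : 1 < s.re) :
    Summable (fun a : {a : Ideal (𝓞 K) // a ≠ ⊥} => ‖(Ideal.absNorm a.1 : ℂ) ^ (-s)‖) :=
  (Pool.Agent.H484R2.hasSum_ideals K hs).summable.norm

lemma summable_fS (S : Finset (HeightOneSpectrum (𝓞 K))) (F : Ideal (𝓞 K) → ℂ)
    (hF : ∀ a, ‖F a‖ ≤ 1) {s : ℂ} (hs : 1 < s.re) : Summable (fS S F s) := by
  classical
  have h1 : Summable (fun a : Ideal (𝓞 K) => if a ≠ ⊥ then ‖(Ideal.absNorm a : ℂ) ^ (-s)‖ else 0) := by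
    have hinj : Function.Injective (fun I : {a : Ideal (𝓞 K) // a ≠ ⊥} => I.1) :=
      Subtype.val_injective
    rw [← hinj.summable_iff]
    · refine (summable_norm (K := K) hs).congr fun a => ?_
      simp only [Function.comp_apply, if_pos a.2]
    · intro a ha
      have h0 : ¬ (a ≠ ⊥) := fun h0 => ha ⟨⟨a, h0⟩, rfl⟩
      simp only [if_neg h0]
  refine Summable.of_norm_bounded h1 fun a => ?_
  unfold fS
  split_ifs with h2 h3 h3
  · rw [norm_mul]
    calc ‖F a‖ * ‖(Ideal.absNorm a : ℂ) ^ (-s)‖ ≤ 1 * ‖(Ideal.absNorm a : ℂ) ^ (-s)‖ :=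
          mul_le_mul_of_nonneg_right (hF a) (norm_nonneg _)
      _ = _ := one_mul _
  · exact absurd h2.1 h3
  · rw [norm_zero]; exact norm_nonneg _
  · rw [norm_zero]

lemma map_top {F : Ideal (𝓞 K) → ℂ}
    (hmul : ∀ a b : Ideal (𝓞 K), a ≠ ⊥ → b ≠ ⊥ → F (a * b) = F a * F b)
    (hF : ∀ a, ‖F a‖ = 1) : F ⊤ = 1 := by
  have h1 := hmul ⊤ ⊤ top_ne_bot top_ne_bot
  rw [Ideal.top_mul] at h1
  have h2 : F ⊤ ≠ 0 := by
    intro h
    have h3 := hF ⊤
    rw [h, norm_zero] at h3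
    exact zero_ne_one h3
  exact (mul_eq_left₀ h2).1 h1.symm

lemma cmi_fS (S : Finset (HeightOneSpectrum (𝓞 K))) {F : Ideal (𝓞 K) → ℂ}
    (hmul : ∀ a b : Ideal (𝓞 K), a ≠ ⊥ → b ≠ ⊥ → F (a * b) = F a * F b)
    (hF : ∀ a, ‖F a‖ = 1) {s : ℂ} (hs : 1 < s.re) :
    Pool.Agent.R426.QC.CMI (fS S F s) where
  zero := by
    unfold fS
    rw [if_neg]
    exact fun h => h.1 rfl
  one := by
    unfold fS
    rw [if_pos (primeTo_top S), map_top hmul hF, Ideal.absNorm_top]
    simp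
  mul a b := by
    unfold fS
    by_cases ha : PrimeTo S a
    · by_cases hb : PrimeTo S b
      · rw [if_pos ha, if_pos hb, if_pos ((primeTo_mul S a b).2 ⟨ha, hb⟩), hmul a b ha.1 hb.1,
          map_mul]
        push_cast
        rw [Complex.natCast_mul_natCast_cpow]
        ring
      · rw [if_neg hb, if_neg (fun h => hb ((primeTo_mul S a b).1 h).2), mul_zero]
    · rw [if_neg ha, if_neg (fun h => ha ((primeTo_mul S a b).1 h).1), zero_mul]
  summ := summable_fS S F (fun a => (hF a).le) hs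

/-- **DIR** -/
theorem t_DIR : S_DIR := by
  classical
  intro K _ _ S F hmul hF s hs
  have hc := cmi_fS S hmul hF hs
  refine ⟨∑' a : Ideal (𝓞 K), fS S F s a, ?_, ?_⟩
  · have hinj : Function.Injective
        (fun a : {a : Ideal (𝓞 K) // a ≠ ⊥ ∧ ∀ p ∈ S, ¬ a ≤ p.asIdeal} => (a : Ideal (𝓞 K))) :=
      Subtype.val_injective
    have h1 := (hinj.hasSum_iff (f := fS S F s) (a := ∑' a : Ideal (𝓞 K), fS S F s a) (by
      intro a ha
      unfold fS
      rw [if_neg]
      exact fun h => ha ⟨⟨a, h⟩, rfl⟩)).2 hc.summ.hasSum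
    refine Eq.mp (congrArg (fun f => HasSum f _) (funext fun a => ?_)) h1
    change fS S F s a.1 = _
    unfold fS
    exact if_pos a.2
  · have hinj : Function.Injective
        (fun p : {p : HeightOneSpectrum (𝓞 K) // p ∉ S} => (p : HeightOneSpectrum (𝓞 K))) :=
      Subtype.val_injective
    have h1 := (hinj.hasProd_iff
      (f := fun p : HeightOneSpectrum (𝓞 K) => (1 - fS S F s p.asIdeal)⁻¹)
      (a := ∑' a : Ideal (𝓞 K), fS S F s a) (by
      intro p hp
      have h2 : ¬ PrimeTo S p.asIdeal := by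
        rw [primeTo_prime]
        exact fun h => hp ⟨⟨p, h⟩, rfl⟩
      unfold fS
      rw [if_neg h2, sub_zero, inv_one])).2 (Pool.Agent.R426.QC.hasProdI hc)
    refine Eq.mp (congrArg (fun f => HasProd f _) (funext fun p => ?_)) h1
    change (1 - fS S F s p.1.asIdeal)⁻¹ = _
    unfold fS
    rw [if_pos ((primeTo_prime S p.1).2 p.2)]

end Pool.Agent.Run7.h341.ST
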