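import Pool.Agent.Run7.h787.ST.Iface3

/-!
# From partial zeta functions to `L`-functions (piece ZL of project ST)
-/

set_option autoImplicit false

open NumberField IsDedekindDomain

noncomputable section

namespace Pool.Agent.Run7.h341.ST

open Pool.Agent.Run7.h787.ST

/-- a value of a character of a finite group has absolute value one -/
lemma norm_char {G : Type} [Group G] [Finite G] (χ : G →* ℂˣ) (g : G) : ‖(χ g : ℂ)‖ = 1 := by
  have h1 : ((χ g : ℂˣ) : ℂ) ^ (Nat.card G) = 1 := by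
    rw [← Units.val_pow_eq_pow_val, ← map_pow, pow_card_eq_one', map_one, Units.val_one]
  exact Complex.norm_eq_one_of_pow_eq_one h1 Nat.card_pos.ne'

/-- **ZL** -/
theorem t_ZL : S_DIR → S_ZL := by
  classical
  intro hDIR K _ _ _ H S D hH
  obtain ⟨hfd, hab⟩ := hH
  haveI : FiniteDimensional K H := hfd
  haveI : Finite (Gal H) := inferInstance
  letI : Fintype (Gal H) := Fintype.ofFinite _
  -- the function `F = χ ∘ art`
  have hmul : ∀ (χ : Gal H →* ℂˣ) (a b : Ideal (𝓞 K)), a ≠ ⊥ → b ≠ ⊥ →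
      (χ (D.art (a * b)) : ℂ) = (χ (D.art a) : ℂ) * (χ (D.art b) : ℂ) := by
    intro χ a b ha hb
    rw [D.art_mul a b ha hb, map_mul, Units.val_mul]
  have hsum : ∀ (χ : Gal H →* ℂˣ) (s : ℂ), 1 < s.re →
      HasSum (fun a : {a : Ideal (𝓞 K) // a ≠ ⊥ ∧ ∀ p ∈ S, ¬ a ≤ p.asIdeal} =>
        (χ (D.art a.1) : ℂ) * (Ideal.absNorm (a : Ideal (𝓞 K)) : ℂ) ^ (-s))
        (∑ g : Gal H, (χ g : ℂ) * D.Z g s) := by
    intro χ s hs
    have h1 : ∀ g : Gal H, HasSum
        (fun a : {a : Ideal (𝓞 K) // a ≠ ⊥ ∧ ∀ p ∈ S, ¬ a ≤ p.asIdeal} =>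
          if D.art a.1 = g then (χ g : ℂ) * (Ideal.absNorm (a : Ideal (𝓞 K)) : ℂ) ^ (-s) else 0)
        ((χ g : ℂ) * D.Z g s) := by
      intro g
      have h2 := (D.series g s hs).mul_left (χ g : ℂ)
      let ι : {a : Ideal (𝓞 K) // a ≠ ⊥ ∧ (∀ p ∈ S, ¬ a ≤ p.asIdeal) ∧ D.art a = g} →
          {a : Ideal (𝓞 K) // a ≠ ⊥ ∧ ∀ p ∈ S, ¬ a ≤ p.asIdeal} := fun a => ⟨a.1, a.2.1, a.2.2.1⟩
      have hι : Function.Injective ι := by
        intro a b h
        have h3 : (ι a).1 = (ι b).1 := congrArg Subtype.val h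
        exact Subtype.ext h3
      rw [← hι.hasSum_iff]
      · refine Eq.mp (congrArg (fun f => HasSum f _) (funext fun a => ?_)) h2
        have h3 : D.art (ι a).1 = g := a.2.2.2
        simp only [Function.comp_apply]
        rw [if_pos h3]
      · intro a ha
        rw [if_neg]
        intro h
        exact ha ⟨⟨a.1, a.2.1, a.2.2, h⟩, rfl⟩
    have h4 := hasSum_sum (s := (Finset.univ : Finset (Gal H))) (fun g _ => h1 g)
    refine Eq.mp (congrArg (fun f => HasSum f _) (funext fun a => ?_)) h4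
    rw [Finset.sum_ite_eq Finset.univ (D.art a.1)]
    rw [if_pos (Finset.mem_univ _)]
  refine ⟨⟨fun p => D.art p.asIdeal, fun p hp => D.art_frob p hp,
    fun χ s => ∑ g : Gal H, (χ g : ℂ) * D.Z g s, ?_, ?_⟩, fun p => rfl, ?_⟩
  · intro χ
    exact DifferentiableOn.fun_sum fun g _ => (D.analytic g).const_mul _
  · intro χ s hs
    obtain ⟨A, hA1, hA2⟩ := hDIR K S (fun a => (χ (D.art a) : ℂ)) (hmul χ)
      (fun a => norm_char χ _) s hs
    have h5 : A = ∑ g : Gal H, (χ g : ℂ) * D.Z g s := hA1.unique (hsum χ s hs)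
    rw [← h5]
    exact hA2
  · intro χ s
    rw [finsum_eq_sum_of_fintype]

end Pool.Agent.Run7.h341.ST
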